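import Pool.Agent.H45.CF.Targets

/-!
# MP_e37c09_lc (all cofinalities), module CV: the covering lemma
-/

open Ordinal Cardinal Order Set
open scoped ZFSet

universe u

namespace Pool.Agent.H46.CF

open _root_.HD _root_.HD.CF
open _root_.HD.NF (w0)

/-- the predicate which is transferred: variables `κ, δ, f, X, ω` -/
def Pr (v : ℕ → ZFSet.{u}) : Prop :=
  ∃ b ∈ v 0, ∃ c ∈ v 1, v 4 ∈ c ∧ (c.IsOrdinal ∧ b.IsOrdinal ∧ Cf c.rank b.rank) ∧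
    ∀ n ∈ v 4, ∀ i ∈ v 0, ZFSet.pair n i ∈ v 3 → ((v 4).IsOrdinal ∧ b.IsOrdinal ∧
      Pos (v 4).rank b.rank {b' | ZFSet.pair b'.toZFSet i ∈ v 2})

theorem loc_Pr : Loc.{u} Pr := by
  refine Loc.exMem (R := fun b v => ∃ c ∈ v 1, v 4 ∈ c ∧ (c.IsOrdinal ∧ b.IsOrdinal ∧
    Cf c.rank b.rank) ∧ ∀ n ∈ v 4, ∀ i ∈ v 0, ZFSet.pair n i ∈ v 3 → ((v 4).IsOrdinal ∧
      b.IsOrdinal ∧ Pos (v 4).rank b.rank {b' | ZFSet.pair b'.toZFSet i ∈ v 2})) 0 ?_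
  refine Loc.exMem (R := fun c v => v 5 ∈ c ∧ (c.IsOrdinal ∧ (v 0).IsOrdinal ∧
    Cf c.rank (v 0).rank) ∧ ∀ n ∈ v 5, ∀ i ∈ v 1, ZFSet.pair n i ∈ v 4 → ((v 5).IsOrdinal ∧
      (v 0).IsOrdinal ∧ Pos (v 5).rank (v 0).rank {b' | ZFSet.pair b'.toZFSet i ∈ v 3})) 2 ?_
  refine (Loc.mem 6 0).and (Loc.and ?_ ?_)
  · exact (Loc.ren All.la (fun n => if n = 0 then 0 else 1)).congr fun v => by simp
  · refine Loc.allMem (R := fun n v => ∀ i ∈ v 2, ZFSet.pair n i ∈ v 5 → ((v 6).IsOrdinal ∧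
      (v 1).IsOrdinal ∧ Pos (v 6).rank (v 1).rank {b' | ZFSet.pair b'.toZFSet i ∈ v 4})) 6 ?_
    refine Loc.allMem (R := fun i v => ZFSet.pair (v 0) i ∈ v 6 → ((v 7).IsOrdinal ∧
      (v 2).IsOrdinal ∧ Pos (v 7).rank (v 2).rank {b' | ZFSet.pair b'.toZFSet i ∈ v 5})) 3 ?_
    refine (loc_pmem 1 0 7).imp ?_
    exact (Loc.ren All.lb (fun n => if n = 0 then 8 else if n = 1 then 3 else
      if n = 2 then 6 else 0)).congr fun v => by simp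

theorem pf_CV (hSL : T_SL.{u}) : T_CV.{u} := by
  intro δ K s hext hP hδ x hx
  obtain ⟨η, -, θ, j, hs⟩ := hSL δ K s hext hP hδ 0
  have hj := hs.emb
  set f : ZFSet.{u} := rs K.ord K.ord s with hf
  have hKη : K.ord < η := hs.kη
  have hω : (ω : Ordinal.{u}) < δ := hs.dom
  have hωη : (ω : Ordinal.{u}) < η := hω.trans hj.dlt
  have hw0 : (w0 : Ordinal.{u}) = ω := Cardinal.ord_aleph0
  -- the ordinal `ρ`
  obtain ⟨ρ, hρ1, hρ2⟩ : ∃ ρ : Ordinal.{u}, (∀ a < K.ord, Jo j a < ρ) ∧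
      ∀ y < ρ, ∃ a < K.ord, y < Jo j a := by
    have hne : Jo j K.ord ∈ {r : Ordinal.{u} | ∀ a < K.ord, Jo j a < r} :=
      fun a ha => H87.HD.XF.J_lt hj ha hKη
    refine ⟨sInf {r : Ordinal.{u} | ∀ a < K.ord, Jo j a < r}, csInf_mem ⟨_, hne⟩, fun y hy => ?_⟩
    have h1 : y ∉ {r : Ordinal.{u} | ∀ a < K.ord, Jo j a < r} := notMem_of_lt_csInf' hy
    simp only [Set.mem_ofPred_eq, not_forall, not_lt] at h1
    obtain ⟨a, ha, h2⟩ := h1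
    have hsa : succ a < K.ord := (Cardinal.isSuccLimit_ord hs.kreg.1).succ_lt ha
    exact ⟨succ a, hsa, h2.trans_lt (H87.HD.XF.J_lt hj (lt_succ a) (hsa.trans hKη))⟩
  have hρcof : ρ.cof = K := by
    rw [← H87.HD.XF.cof_eq (Jo j) (fun a b hab hb => H87.HD.XF.J_lt hj hab (hb.trans hKη))
      hρ1 hρ2, hs.kreg.cof_ord]
  have hρK : ρ < Jo j K.ord := by
    obtain ⟨K', hK', hJK⟩ := All.xd δ η θ j hj K hs.kreg hKη
    have hle : ρ ≤ Jo j K.ord := by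
      by_contra h
      push Not at h
      obtain ⟨a, ha, h1⟩ := hρ2 _ h
      exact absurd (H87.HD.XF.J_lt hj ha hKη) (not_lt.2 h1.le)
    refine lt_of_le_of_ne hle fun h => ?_
    have h1 : K = K' := by
      rw [← hρcof, h, hJK, hK'.cof_ord]
    have h2 : K.ord < Jo j K.ord :=
      (hKη.trans hj.Jo_crit).trans (H87.HD.XF.J_lt hj hs.dk hKη)
    rw [hJK, ← h1] at h2
    exact lt_irrefl _ h2
  have hXF := All.xf δ η θ j ℵ₀ K K.ord f hs ρ hρ1 hρ2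
  -- the family as a set
  set X : ZFSet.{u} := rs ω K.ord (fun n i => ∃ m : ℕ, n = m ∧ i = x m) with hX
  have hXη : X ∈ V_ η := by
    refine mem_V_of_sub (y := ZFSet.prod (ω : Ordinal.{u}).toZFSet K.ord.toZFSet)
      (fun p hp => (ZFSet.mem_sep.1 hp).1) ?_
    exact hj.gd.prod (Gd.ord.2 hωη) (Gd.ord.2 hKη)
  have hmem : ∀ z ∈ [K.ord.toZFSet, δ.toZFSet, f, X, (ω : Ordinal.{u}).toZFSet], z ∈ V_ η := by
    simp only [List.mem_cons, List.not_mem_nil, or_false, forall_eq_or_imp, forall_eq]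
    exact ⟨Gd.ord.2 hKη, Gd.ord.2 hj.dlt, hs.fη, hXη, Gd.ord.2 hωη⟩
  have key := (hj.trl loc_Pr _ hmem).2
  -- the family `j X`
  have hjX : ∀ (m : ℕ), ∀ i ∈ (Jo j K.ord).toZFSet,
      ZFSet.pair (m : Ordinal.{u}).toZFSet i ∈ j X → i = (Jo j (x m)).toZFSet := by
    intro m
    have hmω : (m : Ordinal.{u}) < ω := Ordinal.natCast_lt_omega0 m
    have hxη : x m < η := (hx m).trans hKη
    have hL : Loc.{u} fun v => ∀ i ∈ v 0, ZFSet.pair (v 1) i ∈ v 2 → i = v 3 :=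
      Loc.allMem (R := fun i v => ZFSet.pair (v 1) i ∈ v 2 → i = v 3) 0
        ((loc_pmem 2 0 3).imp (Loc.eq 0 4))
    have t := (hj.trl hL [K.ord.toZFSet, (m : Ordinal.{u}).toZFSet, X, (x m).toZFSet] (by
      simp only [List.mem_cons, List.not_mem_nil, or_false, forall_eq_or_imp, forall_eq]
      exact ⟨Gd.ord.2 hKη, Gd.ord.2 (hmω.trans hωη), hXη, Gd.ord.2 hxη⟩)).1 (by
        show ∀ i ∈ K.ord.toZFSet, ZFSet.pair (m : Ordinal.{u}).toZFSet i ∈ X →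
          i = (x m).toZFSet
        intro i hi h
        obtain ⟨i, -, rfl⟩ := mem_toZFSet_iff.1 hi
        rw [hX, pair_mem_rs] at h
        obtain ⟨-, -, m', h1, h2⟩ := h
        rw [h2, Nat.cast_inj.1 h1])
    have t' : ∀ i ∈ j K.ord.toZFSet, ZFSet.pair (j (m : Ordinal.{u}).toZFSet) i ∈ j X →
        i = j (x m).toZFSet := t
    rwa [hj.ord hKη, hj.fix _ (hmω.trans hω), hj.ord hxη] at t'
  have h2 : Pr (sv (List.map j [K.ord.toZFSet, δ.toZFSet, f, X, (ω : Ordinal.{u}).toZFSet])) := by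
    show ∃ b ∈ j K.ord.toZFSet, ∃ c ∈ j δ.toZFSet, j (ω : Ordinal.{u}).toZFSet ∈ c ∧
      (c.IsOrdinal ∧ b.IsOrdinal ∧ Cf c.rank b.rank) ∧
      ∀ n ∈ j (ω : Ordinal.{u}).toZFSet, ∀ i ∈ j K.ord.toZFSet, ZFSet.pair n i ∈ j X →
        ((j (ω : Ordinal.{u}).toZFSet).IsOrdinal ∧ b.IsOrdinal ∧
        Pos (j (ω : Ordinal.{u}).toZFSet).rank b.rank {b' | ZFSet.pair b'.toZFSet i ∈ j f})
    rw [hj.fix _ hω, hj.ord hKη, hj.ord hj.dlt]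
    refine ⟨ρ.toZFSet, toZFSet_mem_toZFSet_iff.2 hρK, K.ord.toZFSet,
      toZFSet_mem_toZFSet_iff.2 (hKη.trans hj.Jo_crit),
      toZFSet_mem_toZFSet_iff.2 (hω.trans hδ),
      ⟨ZFSet.isOrdinal_toZFSet _, ZFSet.isOrdinal_toZFSet _, ?_⟩, ?_⟩
    · rw [rank_toZFSet, rank_toZFSet]
      show ρ.cof.ord = K.ord
      rw [hρcof]
    · intro n hn i hi hni
      refine ⟨ZFSet.isOrdinal_toZFSet _, ZFSet.isOrdinal_toZFSet _, ?_⟩
      obtain ⟨n, hn', rfl⟩ := mem_toZFSet_iff.1 hn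
      obtain ⟨m, rfl⟩ := Ordinal.lt_omega0.1 hn'
      have h3 := hjX m i hi hni
      rw [rank_toZFSet, rank_toZFSet, h3, ← Cardinal.ord_aleph0]
      have h4 : Jo j (x m) < Jo j K.ord := H87.HD.XF.J_lt hj (hx m) hKη
      exact (hXF _ h4).2 ⟨x m, hx m, rfl⟩
  have h3 := key h2
  change ∃ b ∈ K.ord.toZFSet, ∃ c ∈ δ.toZFSet, (ω : Ordinal.{u}).toZFSet ∈ c ∧
      (c.IsOrdinal ∧ b.IsOrdinal ∧ Cf c.rank b.rank) ∧
      ∀ n ∈ (ω : Ordinal.{u}).toZFSet, ∀ i ∈ K.ord.toZFSet, ZFSet.pair n i ∈ X →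
        ((ω : Ordinal.{u}).toZFSet.IsOrdinal ∧ b.IsOrdinal ∧
        Pos (ω : Ordinal.{u}).toZFSet.rank b.rank {b' | ZFSet.pair b'.toZFSet i ∈ f}) at h3
  obtain ⟨b, hb, c, hc, h4, ⟨-, -, h5⟩, h6⟩ := h3
  obtain ⟨β, hβ, rfl⟩ := mem_toZFSet_iff.1 hb
  obtain ⟨γ, hγ, rfl⟩ := mem_toZFSet_iff.1 hc
  rw [rank_toZFSet, rank_toZFSet] at h5
  have h5' : β.cof.ord = γ := h5
  rw [toZFSet_mem_toZFSet_iff] at h4
  refine ⟨β, hβ, ?_, h5'.trans_lt hγ, fun n => ?_⟩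
  · rw [← h5', ← Cardinal.ord_aleph0] at h4
    exact Cardinal.ord_lt_ord.1 h4
  · have h7 := (h6 (n : Ordinal.{u}).toZFSet
      (toZFSet_mem_toZFSet_iff.2 (Ordinal.natCast_lt_omega0 n)) (x n).toZFSet
      (toZFSet_mem_toZFSet_iff.2 (hx n)) (pair_mem_rs.2
        ⟨Ordinal.natCast_lt_omega0 n, hx n, n, rfl, rfl⟩)).2.2
    rw [rank_toZFSet, rank_toZFSet] at h7
    rw [hw0]
    refine h7.mono fun b' _ hb' _ => ?_
    exact (pair_mem_rs.1 hb').2.2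

end Pool.Agent.H46.CF
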